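import Mathlib

namespace Pool.Agent.Results.MP_5851c7_co.Q1
open Finset

variable {V : Type} [Fintype V] [DecidableEq V]

/-- Balanced degree: arcs of `B` leaving `v` minus arcs of `B` entering `v`. -/
def bal (B : Finset (V × V)) (v : V) : ℤ := (#{w | (v, w) ∈ B} : ℤ) - #{w | (w, v) ∈ B}

/-- `B` is strong locally irregular. -/
def SLI (B : Finset (V × V)) : Prop := ∀ e ∈ B, bal B e.1 ≠ bal B e.2

lemma greedy (R : V → V → Prop) [DecidableRel R] (hs : ∀ a b, R a b → R b a) (hi : ∀ a, ¬ R a a)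
    (L : V → Finset ℤ) (hL : ∀ u, #{w | R u w} < #(L u)) :
    ∃ f : V → ℤ, (∀ u, f u ∈ L u) ∧ ∀ a b, R a b → f a ≠ f b := by
  have : ∀ S : Finset V, ∃ f : V → ℤ, (∀ u ∈ S, f u ∈ L u) ∧
      ∀ a ∈ S, ∀ b ∈ S, R a b → f a ≠ f b := by
    intro S
    induction S using Finset.induction_on with
    | empty => exact ⟨0, by simp, by simp⟩
    | insert u S hu ih =>
      obtain ⟨f, h1, h2⟩ := ih
      obtain ⟨x, hx, hx'⟩ := exists_mem_notMem_of_card_lt_card
        (card_image_le.trans_lt (hL u) : #(({w | R u w} : Finset V).image f) < _)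
      have k : ∀ b ∈ S, Function.update f u x b = f b := fun b hb =>
        Function.update_of_ne (by rintro rfl; exact hu hb) _ _
      have m : ∀ b, R u b → x ≠ f b := fun b h e => hx' (mem_image.2 ⟨b, by simpa, e.symm⟩)
      refine ⟨Function.update f u x, fun a ha => ?_, fun a ha b hb h => ?_⟩
      · rcases mem_insert.1 ha with rfl | ha
        · simpa
        · rw [k a ha]; exact h1 a ha
      · rcases mem_insert.1 ha with rfl | ha' <;> rcases mem_insert.1 hb with rfl | hb'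
        · exact absurd h (hi _)
        · rw [k b hb']; simpa using m b h
        · rw [k a ha']; simpa using (m a (hs _ _ h)).symm
        · rw [k a ha', k b hb']; exact h2 a ha' b hb' h
  obtain ⟨f, h1, h2⟩ := this univ
  exact ⟨f, fun u => h1 u (mem_univ _), fun a b => h2 a (mem_univ _) b (mem_univ _)⟩

lemma core (A : Finset (V × V)) (hA : ∀ v, (v, v) ∉ A) (Q : Finset V) (O : V → Finset V)
    (hO : ∀ u ∈ Q, ∀ w ∈ O u, w ∉ Q ∧ (u, w) ∈ A)
    (hc : ∀ u ∈ Q, 2 * (#{w ∈ Q | (u, w) ∈ A} + #{w ∈ Q | (w, u) ∈ A}) ≤ #(O u)) :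
    ∃ B ⊆ A, SLI B ∧ (∀ e ∈ A, e.1 ∈ Q → e.2 ∈ Q → e ∈ B) ∧
      ∀ e ∈ B, e.1 ∈ Q ∧ (e.2 ∈ Q ∨ e.2 ∈ O e.1) := by
  set o : V → ℕ := fun u => #{w ∈ Q | (u, w) ∈ A} with ho
  set i : V → ℕ := fun u => #{w ∈ Q | (w, u) ∈ A} with hi
  obtain ⟨f, h1, h2⟩ := greedy (fun a b => a ∈ Q ∧ b ∈ Q ∧ ((a, b) ∈ A ∨ (b, a) ∈ A))
    (fun a b h => by tauto) (fun a h => by simpa [hA a] using h.2.2)
    (fun u => Icc (o u : ℤ) (2 * o u + i u)) fun u => by
      rw [Int.card_Icc]
      have : #{w | u ∈ Q ∧ w ∈ Q ∧ ((u, w) ∈ A ∨ (w, u) ∈ A)} ≤ o u + i u :=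
        (card_le_card fun w => by simp; tauto).trans (card_union_le _ _)
      omega
  have : ∀ u, ∃ T ⊆ O u, u ∈ Q → (#T : ℤ) = f u - o u + i u := fun u => by
    by_cases h : u ∈ Q
    · have := hc u h
      have := mem_Icc.1 (h1 u)
      obtain ⟨T, hT, e⟩ := exists_subset_card_eq (s := O u) (n := (f u - o u + i u).toNat)
        (by simp only [ho, hi] at *; omega)
      exact ⟨T, hT, fun _ => by omega⟩
    · exact ⟨∅, by simp, by simp [h]⟩
  choose T hT hT' using this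
  set B := {e ∈ A | e.1 ∈ Q ∧ (e.2 ∈ Q ∨ e.2 ∈ T e.1)} with hB
  have bq : ∀ u ∈ Q, bal B u = f u := fun u hu => by
    have e1 : ({w | (u, w) ∈ B} : Finset V) = {w ∈ Q | (u, w) ∈ A} ∪ T u := by
      ext w; have := fun h => (hO u hu w (hT u h)).2
      simp [hB, hu]; tauto
    have e2 : ({w | (w, u) ∈ B} : Finset V) = {w ∈ Q | (w, u) ∈ A} := by
      ext w; simp [hB, hu]; tauto
    rw [bal, e1, e2, card_union_of_disjoint, Nat.cast_add, hT' u hu]
    · simp only [ho, hi]; ring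
    · exact disjoint_left.2 fun w h h' => (hO u hu w (hT u h')).1 (mem_filter.1 h).1
  refine ⟨B, filter_subset _ _, fun e he => ?_, fun e h a b => by simp [hB, h, a, b],
    fun e he => ?_⟩
  · obtain ⟨h, a, b⟩ := mem_filter.1 he
    by_cases q : e.2 ∈ Q
    · rw [bq _ a, bq _ q]; exact h2 _ _ ⟨a, q, .inl h⟩
    · have e1 : ({w | (e.2, w) ∈ B} : Finset V) = ∅ := by ext w; simp [hB, q]
      have e2 : 0 < #({w | (w, e.2) ∈ B} : Finset V) := card_pos.2 ⟨e.1, by simpa using he⟩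
      have := mem_Icc.1 (h1 e.1)
      rw [bq _ a, bal, e1, card_empty]
      omega
  · obtain ⟨h, a, b⟩ := mem_filter.1 he
    exact ⟨a, b.imp id fun h => hT _ h⟩

lemma core' (A : Finset (V × V)) (hA : ∀ v, (v, v) ∉ A) (Q : Finset V) (O : V → Finset V)
    (hO : ∀ u ∈ Q, ∀ w ∈ O u, w ∉ Q ∧ (w, u) ∈ A)
    (hc : ∀ u ∈ Q, 2 * (#{w ∈ Q | (u, w) ∈ A} + #{w ∈ Q | (w, u) ∈ A}) ≤ #(O u)) :
    ∃ B ⊆ A, SLI B ∧ (∀ e ∈ A, e.1 ∈ Q → e.2 ∈ Q → e ∈ B) ∧
      ∀ e ∈ B, e.2 ∈ Q ∧ (e.1 ∈ Q ∨ e.1 ∈ O e.2) := by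
  obtain ⟨B, h1, h2, h3, h4⟩ := core (univ.filter fun e : V × V => e.swap ∈ A) (by simpa) Q O (by simpa)
    (by simpa [add_comm] using hc)
  refine ⟨univ.filter fun e : V × V => e.swap ∈ B, fun e he => by simpa using h1 (mem_filter.1 he).2, fun e he => ?_,
    fun e h a b => by simpa using h3 e.swap (by simpa) b a, fun e he => h4 _ (mem_filter.1 he).2⟩
  have := h2 _ (mem_filter.1 he).2
  simp [bal] at this ⊢
  omega

lemma cut (A : Finset (V × V)) (hA : ∀ v, (v, v) ∉ A) : ∃ p : V → Fin 9, ∀ u j,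
    #{w | p w = p u ∧ (u, w) ∈ A} + #{w | p w = p u ∧ (w, u) ∈ A} ≤
      #{w | p w = j ∧ (u, w) ∈ A} + #{w | p w = j ∧ (w, u) ∈ A} := by
  obtain ⟨p, -, hp⟩ := exists_min_image (univ : Finset (V → Fin 9))
    (fun p => #{e ∈ A | p e.1 = p e.2}) univ_nonempty
  refine ⟨p, fun u j => ?_⟩
  have key : ∀ q : V → Fin 9, #{e ∈ A | q e.1 = q e.2} =
      #{e ∈ A | e.1 ≠ u ∧ e.2 ≠ u ∧ q e.1 = q e.2} +
      (#{w | q w = q u ∧ (u, w) ∈ A} + #{w | q w = q u ∧ (w, u) ∈ A}) := fun q => by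
    rw [← card_image_of_injective {w | q w = q u ∧ (u, w) ∈ A} (f := fun w => (u, w))
        (Prod.mk_right_injective u),
      ← card_image_of_injective {w | q w = q u ∧ (w, u) ∈ A} (f := fun w => (w, u))
        (Prod.mk_left_injective u), ← card_union_of_disjoint, ← card_union_of_disjoint]
    · congr 1; ext ⟨a, b⟩; simp; grind
    · simp [disjoint_left]; grind
    · simp [disjoint_left]; grind
  have := hp (Function.update p u j) (mem_univ _)
  rw [key, key] at this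
  have e0 : #{e ∈ A | e.1 ≠ u ∧ e.2 ≠ u ∧ Function.update p u j e.1 = Function.update p u j e.2}
      = #{e ∈ A | e.1 ≠ u ∧ e.2 ≠ u ∧ p e.1 = p e.2} := by
    congr 1; ext e; simp; grind
  have e1 : #{w | Function.update p u j w = Function.update p u j u ∧ (u, w) ∈ A}
      = #{w | p w = j ∧ (u, w) ∈ A} := by congr 1; ext w; simp; grind
  have e2 : #{w | Function.update p u j w = Function.update p u j u ∧ (w, u) ∈ A}
      = #{w | p w = j ∧ (w, u) ∈ A} := by congr 1; ext w; simp; grind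
  rw [e0, e1, e2] at this
  omega

theorem result (n : ℕ) (A : Finset (Fin n × Fin n)) (hA : ∀ v, (v, v) ∉ A) :
    ∃ c : Fin n × Fin n → Fin 324, ∀ i, SLI {e ∈ A | c e = i} := by
  obtain ⟨p, hp⟩ := cut A hA
  set K : Finset (Fin 9) := {1, 2, 3, 4} with hK
  have k1 : ∀ i j : Fin 9, j - i ∈ K → i - j ∉ K := by decide
  have k0 : ∀ i j : Fin 9, j - i ∈ K → i ≠ j := by decide
  have fib : ∀ (u : Fin n) (R : Fin n → Prop) [DecidablePred R], #{w | p w - p u ∈ K ∧ R w} =
      ∑ k ∈ K, #{w | p w = p u + k ∧ R w} := fun u R _ => by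
    rw [card_eq_sum_card_fiberwise (f := fun w => p w - p u) (t := K) fun w h => by
      simpa using (mem_filter.1 h).2.1]
    refine sum_congr rfl fun k hk => congrArg _ ?_
    ext w
    simp only [mem_filter, mem_univ, true_and]
    exact ⟨fun h => ⟨by rw [← h.2]; simp, h.1.2⟩, fun h => by simp [h.1, h.2, hk]⟩
  set t : Fin n → ℕ := fun u => #{w | p w = p u ∧ (u, w) ∈ A} + #{w | p w = p u ∧ (w, u) ∈ A}
    with ht
  have big : ∀ u, 4 * t u ≤ #{w | p w - p u ∈ K ∧ (u, w) ∈ A} +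
      #{w | p w - p u ∈ K ∧ (w, u) ∈ A} := fun u => by
    rw [fib, fib, ← sum_add_distrib]
    exact card_nsmul_le_sum K _ (t u) fun k _ => hp u _
  set P : Fin n → Fin 9 × Bool :=
    fun u => (p u, decide (2 * t u ≤ #{w | p w - p u ∈ K ∧ (u, w) ∈ A})) with hP
  set g : Fin n × Fin n → Fin 9 × Bool :=
    fun e => if p e.1 - p e.2 ∈ K then P e.2 else P e.1 with hg
  have pp : ∀ a b, P a = P b → p a = p b := fun a b h => congrArg Prod.fst h
  have : ∀ Q, ∃ B ⊆ A, SLI B ∧ (∀ e ∈ A, P e.1 = Q → P e.2 = Q → e ∈ B) ∧ ∀ e ∈ B, g e = Q := by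
    intro Q
    have sm : ∀ u, P u = Q → #{w ∈ ({w | P w = Q} : Finset _) | (u, w) ∈ A} +
        #{w ∈ ({w | P w = Q} : Finset _) | (w, u) ∈ A} ≤ t u := fun u h =>
      add_le_add (card_le_card fun w => by simp; exact fun a b => ⟨pp _ _ (a.trans h.symm), b⟩)
        (card_le_card fun w => by simp; exact fun a b => ⟨pp _ _ (a.trans h.symm), b⟩)
    have no : ∀ u w, P u = Q → p w - p u ∈ K → P w ≠ Q := fun u w a b c =>
      k0 _ _ b (pp _ _ (a.trans c.symm))
    cases q : Q.2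
    · obtain ⟨B, h1, h2, h3, h4⟩ := core' A hA {w | P w = Q}
        (fun u => {w | p w - p u ∈ K ∧ (w, u) ∈ A})
        (fun u a w b => by simp at a b ⊢; exact ⟨no u w a b.1, b.2⟩) fun u a => by
          have a := (mem_filter.1 a).2
          have := sm u a
          have := big u
          have : ¬ 2 * t u ≤ #{w | p w - p u ∈ K ∧ (u, w) ∈ A} := by simpa [← a, hP] using q
          omega
      refine ⟨B, h1, h2, by simpa using h3, fun e he => ?_⟩
      have := h4 e he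
      simp only [mem_filter, mem_univ, true_and] at this
      simp only [hg]
      grind
    · obtain ⟨B, h1, h2, h3, h4⟩ := core A hA {w | P w = Q}
        (fun u => {w | p w - p u ∈ K ∧ (u, w) ∈ A})
        (fun u a w b => by simp at a b ⊢; exact ⟨no u w a b.1, b.2⟩) fun u a => by
          have a := (mem_filter.1 a).2
          have := sm u a
          have : 2 * t u ≤ #{w | p w - p u ∈ K ∧ (u, w) ∈ A} := by simpa [← a, hP] using q
          omega
      refine ⟨B, h1, h2, by simpa using h3, fun e he => ?_⟩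
      have := h4 e he
      simp only [mem_filter, mem_univ, true_and] at this
      simp only [hg]
      grind
  choose B h1 h2 h3 h4 using this
  set c : Fin n × Fin n → (Fin 9 × Bool) × (Fin 9 × Bool) :=
    fun e => if e ∈ B (g e) then (g e, g e) else (P e.1, P e.2) with hc
  let φ : (Fin 9 × Bool) × (Fin 9 × Bool) ≃ Fin 324 := Fintype.equivFinOfCardEq (by simp)
  refine ⟨fun e => φ (c e), fun i => ?_⟩
  obtain ⟨⟨Q, Q'⟩, rfl⟩ := φ.surjective i
  simp only [φ.apply_eq_iff_eq]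
  by_cases q : Q = Q'
  · subst q
    convert h2 Q
    ext e
    have := @h1 Q e
    have := h3 Q e
    have := h4 Q e
    simp only [hc, mem_filter]
    grind
  · have m : ∀ e, c e = (Q, Q') → P e.1 = Q ∧ P e.2 = Q' := fun e => by simp only [hc]; grind
    intro e he
    have := m e (mem_filter.1 he).2
    have e1 : ({w | (e.2, w) ∈ ({e ∈ A | c e = (Q, Q')} : Finset _)} : Finset _) = ∅ :=
      eq_empty_of_forall_notMem fun w h => by
        have := m _ (mem_filter.1 (mem_filter.1 h).2).2; grind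
    have e2 : ({w | (w, e.1) ∈ ({e ∈ A | c e = (Q, Q')} : Finset _)} : Finset _) = ∅ :=
      eq_empty_of_forall_notMem fun w h => by
        have := m _ (mem_filter.1 (mem_filter.1 h).2).2; grind
    have e3 : 0 < #({w | (e.1, w) ∈ ({e ∈ A | c e = (Q, Q')} : Finset _)} : Finset _) :=
      card_pos.2 ⟨e.2, by simpa using he⟩
    rw [bal, bal, e1, e2, card_empty]
    omega

end Pool.Agent.Results.MP_5851c7_co.Q1
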